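import Pool.Agent.Helper67.DO.StmtsD

set_option autoImplicit false

/-! Module D4: random left factors stay in a level. -/

namespace Pool.Agent.Helper67.DO

open scoped BigOperators Real
open MeasureTheory

theorem d4_St_open (h : ℝ) : IsOpen (St h) :=
  isOpen_lt (continuous_abs.comp Complex.continuous_im) continuous_const

theorem d4_St_convex (h : ℝ) : Convex ℝ (St h) := by
  intro z hz w hw a b ha hb hab
  show |(a • z + b • w).im| < h
  have hz' : |z.im| < h := hz
  have hw' : |w.im| < h := hw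
  rw [Complex.add_im, Complex.smul_im, Complex.smul_im, smul_eq_mul, smul_eq_mul]
  have h1 : |a * z.im + b * w.im| ≤ a * |z.im| + b * |w.im| := by
    refine (abs_add_le _ _).trans ?_
    rw [abs_mul, abs_mul, abs_of_nonneg ha, abs_of_nonneg hb]
  have h2 : a * |z.im| + b * |w.im| < h := by
    rcases ha.eq_or_lt with h0 | h0
    · have hb1 : b = 1 := by linarith
      rw [← h0, hb1]
      linarith
    · have : a * |z.im| < a * h := mul_lt_mul_of_pos_left hz' h0
      have h3 : b * |w.im| ≤ b * h := mul_le_mul_of_nonneg_left hw'.le hb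
      have h4 : a * h + b * h = h := by rw [← add_mul, hab, one_mul]
      linarith
  exact h1.trans_lt h2

theorem d4_real_mem {h : ℝ} (hh : 0 < h) (x : ℝ) : (x : ℂ) ∈ St h := by
  show |(x : ℂ).im| < h
  rw [Complex.ofReal_im, abs_zero]
  exact hh

/-- shifting the contour -/
theorem d4_shift {f : ℂ → ℂ} {h : ℝ} (hf : DifferentiableOn ℂ f (St h))
    (hp : ∀ z ∈ St h, f (z + 1) = f z) {y : ℝ} (hy : |y| < h) :
    ∫ x in (0 : ℝ)..1, f x = ∫ x in (0 : ℝ)..1, f (x + y * Complex.I) := by
  have hsub : Set.uIcc (0 : ℂ).re (1 + y * Complex.I : ℂ).re ×ℂ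
      Set.uIcc (0 : ℂ).im (1 + y * Complex.I : ℂ).im ⊆ St h := by
    intro z hz
    have h1 := hz.2
    have h2 : z.im ∈ Set.uIcc (0 : ℝ) y := by
      simpa using h1
    show |z.im| < h
    rcases le_total 0 y with h0 | h0
    · rw [Set.uIcc_of_le h0] at h2
      rw [abs_of_nonneg h2.1]
      rw [abs_of_nonneg h0] at hy
      exact h2.2.trans_lt hy
    · rw [Set.uIcc_of_ge h0] at h2
      rw [abs_of_nonpos h2.2]
      rw [abs_of_nonpos h0] at hy
      linarith [h2.1]
  have h1 := Complex.integral_boundary_rect_eq_zero_of_differentiableOn f 0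
    (1 + y * Complex.I) (hf.mono hsub)
  have e1 : (0 : ℂ).re = 0 := rfl
  have e2 : (0 : ℂ).im = 0 := rfl
  have e3 : (1 + y * Complex.I : ℂ).re = 1 := by simp
  have e4 : (1 + y * Complex.I : ℂ).im = y := by simp
  rw [e1, e2, e3, e4] at h1
  have h2 : ∫ t in (0 : ℝ)..y, f (((1 : ℝ) : ℂ) + t * Complex.I) =
      ∫ t in (0 : ℝ)..y, f (((0 : ℝ) : ℂ) + t * Complex.I) := by
    apply intervalIntegral.integral_congr
    intro t ht
    have h3 : (((0 : ℝ) : ℂ) + t * Complex.I) ∈ St h := by
      show |(((0 : ℝ) : ℂ) + t * Complex.I).im| < h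
      have h4 : (((0 : ℝ) : ℂ) + t * Complex.I).im = t := by simp
      rw [h4]
      rcases le_total 0 y with h0 | h0
      · rw [Set.uIcc_of_le h0] at ht
        rw [abs_of_nonneg ht.1]
        rw [abs_of_nonneg h0] at hy
        exact ht.2.trans_lt hy
      · rw [Set.uIcc_of_ge h0] at ht
        rw [abs_of_nonpos ht.2]
        rw [abs_of_nonpos h0] at hy
        linarith [ht.1]
    have h5 := hp _ h3
    show f (((1 : ℝ) : ℂ) + t * Complex.I) = f (((0 : ℝ) : ℂ) + t * Complex.I)
    rw [← h5]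
    congr 1
    push_cast
    ring
  rw [h2, add_sub_cancel_right] at h1
  have h3 := sub_eq_zero.1 h1
  rw [← h3]
  apply intervalIntegral.integral_congr
  intro x _
  show f x = f (x + ((0 : ℝ) : ℂ) * Complex.I)
  rw [Complex.ofReal_zero, zero_mul, add_zero]

/-- exponential decay of Fourier coefficients -/
theorem d4_coef {g : ℂ → ℂ} {h G : ℝ} (hf : DifferentiableOn ℂ g (St h))
    (hp : ∀ z ∈ St h, g (z + 1) = g z) (hb : ∀ z ∈ St h, ‖g z‖ ≤ G) {y : ℝ} (hy0 : 0 ≤ y)
    (hy : y < h) (l : ℤ) :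
    ‖∫ x in (0 : ℝ)..1, g x * Complex.exp (-(2 * π * Complex.I * l * x))‖ ≤
      G * Real.exp (-(2 * π * |(l : ℝ)| * y)) := by
  -- the shift
  obtain ⟨y', hy', hly⟩ : ∃ y' : ℝ, |y'| = y ∧ (l : ℝ) * y' = -(|(l : ℝ)| * y) := by
    rcases le_total 0 (l : ℝ) with h0 | h0
    · refine ⟨-y, ?_, ?_⟩
      · rw [abs_neg, abs_of_nonneg hy0]
      · rw [abs_of_nonneg h0]
        ring
    · refine ⟨y, abs_of_nonneg hy0, ?_⟩
      rw [abs_of_nonpos h0]
      ring
  have hE : Differentiable ℂ fun z : ℂ => Complex.exp (-(2 * π * Complex.I * l * z)) := by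
    fun_prop
  have hd : DifferentiableOn ℂ
      (fun z : ℂ => g z * Complex.exp (-(2 * π * Complex.I * l * z))) (St h) :=
    hf.mul hE.differentiableOn
  have hpp : ∀ z ∈ St h, g (z + 1) * Complex.exp (-(2 * π * Complex.I * l * (z + 1))) =
      g z * Complex.exp (-(2 * π * Complex.I * l * z)) := by
    intro z hz
    rw [hp z hz]
    congr 1
    have h1 : -(2 * π * Complex.I * l * (z + 1)) =
        -(2 * π * Complex.I * l * z) + ((-l : ℤ) : ℂ) * (2 * π * Complex.I) := by
      push_cast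
      ring
    rw [h1, Complex.exp_add, Complex.exp_int_mul_two_pi_mul_I, mul_one]
  have h1 := d4_shift (f := fun z : ℂ => g z * Complex.exp (-(2 * π * Complex.I * l * z)))
    hd hpp (y := y') (by rw [hy']; exact hy)
  have h2 : ∫ x in (0 : ℝ)..1, g x * Complex.exp (-(2 * π * Complex.I * l * x)) =
      ∫ x in (0 : ℝ)..1, g (x + y' * Complex.I) *
        Complex.exp (-(2 * π * Complex.I * l * (x + y' * Complex.I))) := h1
  rw [h2]
  have h3 : ∀ x ∈ Set.uIoc (0 : ℝ) 1, ‖g (x + y' * Complex.I) *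
        Complex.exp (-(2 * π * Complex.I * l * (x + y' * Complex.I)))‖ ≤
      G * Real.exp (-(2 * π * |(l : ℝ)| * y)) := by
    intro x _
    rw [norm_mul, Complex.norm_exp]
    have h4 : (-(2 * π * Complex.I * l * (x + y' * Complex.I)) : ℂ).re =
        -(2 * π * |(l : ℝ)| * y) := by
      have h5 : (-(2 * π * Complex.I * l * (x + y' * Complex.I)) : ℂ) =
          ((2 * π * (l * y') : ℝ) : ℂ) + ((-(2 * π * l * x) : ℝ) : ℂ) * Complex.I := by
        push_cast
        ring_nf
        rw [Complex.I_sq]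
        ring
      rw [h5, hly]
      simp
      ring
    rw [h4]
    apply mul_le_mul_of_nonneg_right _ (Real.exp_pos _).le
    apply hb
    show |(x + y' * Complex.I : ℂ).im| < h
    have h6 : (x + y' * Complex.I : ℂ).im = y' := by simp
    rw [h6, hy']
    exact hy
  have h7 := intervalIntegral.norm_integral_le_of_norm_le_const h3
  simpa using h7

theorem d4_int_exp {l : ℤ} (hl : l ≠ 0) :
    ∫ x in (0 : ℝ)..1, Complex.exp (-(2 * π * Complex.I * l * x)) = 0 := by
  have hc : (-(2 * π * Complex.I * l) : ℂ) ≠ 0 := by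
    have h1 : (π : ℂ) ≠ 0 := by exact_mod_cast Real.pi_ne_zero
    have h2 : (l : ℂ) ≠ 0 := by exact_mod_cast hl
    simp [h1, h2]
  have h1 := integral_exp_mul_complex (a := 0) (b := 1) hc
  have h2 : ∫ x in (0 : ℝ)..1, Complex.exp (-(2 * π * Complex.I * l * x)) =
      ∫ x in (0 : ℝ)..1, Complex.exp (-(2 * π * Complex.I * l) * x) := by
    apply intervalIntegral.integral_congr
    intro x _
    show Complex.exp (-(2 * π * Complex.I * l * x)) = Complex.exp (-(2 * π * Complex.I * l) * x)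
    congr 1
    ring
  rw [h2, h1]
  have h3 : Complex.exp (-(2 * π * Complex.I * l) * ((1 : ℝ) : ℂ)) = 1 := by
    have h4 : -(2 * π * Complex.I * l) * ((1 : ℝ) : ℂ) = ((-l : ℤ) : ℂ) * (2 * π * Complex.I) := by
      push_cast
      ring
    rw [h4, Complex.exp_int_mul_two_pi_mul_I]
  rw [h3]
  simp

/-- **Module D4.** -/
theorem st_D4 (h1 : ST_D1) (h2 : ST_D2) : ST_D4 := by
  intro n s0 hn hs0 hs1
  obtain ⟨ρ, s, M, hI⟩ := h1 n hn
  obtain ⟨K, hK0, hK⟩ := h2.2.2.2.2.2.1 n hn
  have hρ : 0 < ρ := lt_of_lt_of_le hI.pos.1 hI.pos.2.1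
  have hM : 0 < M := hI.pos.2.2.2
  have hn0 : (0 : ℝ) < n := by exact_mod_cast hn
  obtain ⟨h, hh⟩ : ∃ h : ℝ, h = min (2 * ρ) (s0 / (4 * M)) := ⟨_, rfl⟩
  have hpos : 0 < h := by
    rw [hh]
    exact lt_min (by linarith) (by positivity)
  have hle1 : h ≤ 2 * ρ := by
    rw [hh]
    exact min_le_left _ _
  have hle2 : M * h ≤ s0 / 4 := by
    have h3 : h ≤ s0 / (4 * M) := by
      rw [hh]
      exact min_le_right _ _
    calc M * h ≤ M * (s0 / (4 * M)) := mul_le_mul_of_nonneg_left h3 hM.le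
      _ = s0 / 4 := by field_simp
  obtain ⟨G, hG⟩ : ∃ G : ℝ, G = s0 / 256 + (s0 / 4 + K + h) := ⟨_, rfl⟩
  obtain ⟨n', hn'⟩ := exists_nat_ge (max (2 * n : ℝ) (max G (2 / h)))
  have hn1 : (2 * n : ℝ) ≤ n' := (le_max_left _ _).trans hn'
  have hn2 : G ≤ n' := ((le_max_left _ _).trans (le_max_right _ _)).trans hn'
  have hn3 : 2 / h ≤ n' := ((le_max_right _ _).trans (le_max_right _ _)).trans hn'
  have hn'0 : (0 : ℝ) < n' := by linarith
  refine ⟨n', ?_, ?_⟩
  · have : (n : ℝ) ≤ n' := by linarith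
    exact_mod_cast this
  intro η hη Φ hΦ c
  have hL := hΦ.1
  have hs4 : 0 < s0 / 4 := by positivity
  have hηan : ∀ x : ℝ, AnalyticAt ℂ η x := fun x =>
    hη.hol.analyticAt ((d4_St_open _).mem_nhds (d4_real_mem hs4 x))
  -- derivative of η at real points
  have hηd : ∀ x : ℝ, 1 / 2 ≤ (deriv η x).re := by
    intro x
    have hsub : Metric.closedBall (x : ℂ) (s0 / 8) ⊆ St (s0 / 4) := by
      intro z hz
      rw [Metric.mem_closedBall, dist_eq_norm] at hz
      show |z.im| < s0 / 4
      have h3 : |(z - x).im| ≤ ‖z - (x : ℂ)‖ := Complex.abs_im_le_norm _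
      rw [Complex.sub_im, Complex.ofReal_im, sub_zero] at h3
      linarith
    have hdo : DifferentiableOn ℂ (fun z => η z - z) (Metric.closedBall (x : ℂ) (s0 / 8)) :=
      (hη.hol.mono hsub).sub differentiableOn_id
    have h3 : ‖deriv (fun z => η z - z) x‖ ≤ s0 / 256 / (s0 / 8) := by
      apply Complex.norm_deriv_le_of_forall_mem_sphere_norm_le (by positivity)
      · exact hdo.diffContOnCl_ball subset_rfl
      · intro z hz
        exact hη.near z (hsub (Metric.sphere_subset_closedBall hz))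
    have h4 : deriv (fun z => η z - z) (x : ℂ) = deriv η x - 1 := by
      have h5 := (hηan x).differentiableAt.hasDerivAt.sub (hasDerivAt_id (x : ℂ))
      exact h5.deriv
    have h5 : s0 / 256 / (s0 / 8) = 1 / 32 := by
      field_simp
      norm_num
    rw [h4, h5] at h3
    have h6 := (Complex.abs_re_le_norm (deriv η x - 1)).trans h3
    rw [Complex.sub_re, Complex.one_re] at h6
    have h7 := (abs_le.1 h6).1
    linarith
  have hηre : ∀ x : ℝ, (((η x).re : ℝ) : ℂ) = η x := by
    intro x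
    apply Complex.ext
    · simp
    · simp [hη.real x]
  -- derivative of Ψ
  have hΨd : ∀ x : ℝ, HasDerivAt (fun x : ℝ => (η ((Φ x + c : ℝ) : ℂ)).re)
      ((deriv η ((Φ x + c : ℝ) : ℂ)).re * deriv Φ x) x := by
    intro x
    have h3 : HasDerivAt (fun x : ℝ => ((Φ x + c : ℝ) : ℂ)) ((deriv Φ x : ℝ) : ℂ) x :=
      ((hL.diff x).hasDerivAt.add_const c).ofReal_comp
    have h4 := (hηan (Φ x + c)).differentiableAt.hasDerivAt
    have h5 : HasDerivAt (fun x : ℝ => η ((Φ x + c : ℝ) : ℂ))
        (deriv η ((Φ x + c : ℝ) : ℂ) * ((deriv Φ x : ℝ) : ℂ)) x := h4.comp x h3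
    have h6 := (Complex.reCLM.hasFDerivAt (x := η ((Φ x + c : ℝ) : ℂ))).comp_hasDerivAt x h5
    have h7 : Complex.reCLM (deriv η ((Φ x + c : ℝ) : ℂ) * ((deriv Φ x : ℝ) : ℂ)) =
        (deriv η ((Φ x + c : ℝ) : ℂ)).re * deriv Φ x := by
      rw [Complex.reCLM_apply, Complex.re_mul_ofReal]
    rw [h7] at h6
    exact h6
  refine ⟨⟨?_, ?_, ?_⟩, ?_, ?_⟩
  · intro x
    have h2 : AnalyticAt ℝ (fun x : ℝ => Φ x + c) x := (hL.an x).add analyticAt_const
    have h3 : AnalyticAt ℝ (fun x : ℝ => ((Φ x + c : ℝ) : ℂ)) x :=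
      AnalyticAt.comp (g := fun t : ℝ => (t : ℂ)) (f := fun x : ℝ => Φ x + c)
        (Complex.ofRealCLM.analyticAt (Φ x + c)) h2
    have h4 : AnalyticAt ℝ η ((Φ x + c : ℝ) : ℂ) := (hηan (Φ x + c)).restrictScalars
    have h5 : AnalyticAt ℝ (fun x : ℝ => η ((Φ x + c : ℝ) : ℂ)) x :=
      AnalyticAt.comp (g := η) (f := fun x : ℝ => ((Φ x + c : ℝ) : ℂ)) h4 h3
    exact AnalyticAt.comp (g := fun z : ℂ => z.re) (f := fun x : ℝ => η ((Φ x + c : ℝ) : ℂ))
      (Complex.reCLM.analyticAt _) h5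
  · intro x
    have h3 : ((Φ (x + 1) + c : ℝ) : ℂ) = ((Φ x + c : ℝ) : ℂ) + 1 := by
      rw [hL.per x]
      push_cast
      ring
    rw [h3, hη.per _ (d4_real_mem hs4 _), Complex.add_re, Complex.one_re]
  · intro x
    rw [(hΨd x).deriv]
    exact mul_pos (by linarith [hηd (Φ x + c)]) (hL.pos x)
  · intro l hl
    -- the holomorphic extension
    have hcim : ∀ z ∈ St h, ‖cx Φ z - (Φ z.re : ℂ)‖ ≤ M * |z.im| := by
      intro z hz
      have hz' : z ∈ St (2 * ρ) := lt_of_lt_of_le hz hle1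
      have hr : (z.re : ℂ) ∈ St (2 * ρ) := d4_real_mem (by linarith) _
      have h3 := (d4_St_convex (2 * ρ)).norm_image_sub_le_of_norm_deriv_le
        (f := cx Φ) (C := M)
        (fun w hw => (hI.hol Φ hΦ).differentiableAt ((d4_St_open _).mem_nhds hw))
        (fun w hw => hI.lip Φ hΦ w hw) hr hz'
      rw [hI.real Φ hΦ] at h3
      refine h3.trans (le_of_eq ?_)
      congr 1
      have h4 : z - (z.re : ℂ) = (z.im : ℂ) * Complex.I := by
        apply Complex.ext <;> simp
      rw [h4, norm_mul, Complex.norm_I, mul_one, Complex.norm_real, Real.norm_eq_abs]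
    have hmap : ∀ z ∈ St h, cx Φ z + c ∈ St (s0 / 4) := by
      intro z hz
      show |(cx Φ z + c).im| < s0 / 4
      have h3 := (Complex.abs_im_le_norm (cx Φ z - (Φ z.re : ℂ))).trans (hcim z hz)
      rw [Complex.sub_im, Complex.ofReal_im, sub_zero] at h3
      rw [Complex.add_im, Complex.ofReal_im, add_zero]
      have h4 : M * |z.im| < M * h := mul_lt_mul_of_pos_left hz hM
      linarith
    obtain ⟨g, hg⟩ : ∃ g : ℂ → ℂ, ∀ z, g z = η (cx Φ z + c) - z - ((c + Φ 0 : ℝ) : ℂ) :=
      ⟨_, fun _ => rfl⟩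
    have hgd : DifferentiableOn ℂ g (St h) := by
      have h3 : DifferentiableOn ℂ (fun z => cx Φ z + c) (St h) :=
        ((hI.hol Φ hΦ).mono fun z hz => lt_of_lt_of_le hz hle1).add_const _
      have h4 : DifferentiableOn ℂ (fun z => η (cx Φ z + c)) (St h) :=
        hη.hol.comp h3 hmap
      have h5 : g = fun z => η (cx Φ z + c) - z - ((c + Φ 0 : ℝ) : ℂ) := funext hg
      rw [h5]
      exact (h4.sub differentiableOn_id).sub_const _
    have hgp : ∀ z ∈ St h, g (z + 1) = g z := by
      intro z hz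
      have hz' : z ∈ St (2 * ρ) := lt_of_lt_of_le hz hle1
      rw [hg, hg, hI.per Φ hΦ z hz']
      have h3 : cx Φ z + 1 + c = cx Φ z + c + 1 := by ring
      rw [h3, hη.per _ (hmap z hz)]
      ring
    have hgb : ∀ z ∈ St h, ‖g z‖ ≤ G := by
      intro z hz
      have h3 : g z = (η (cx Φ z + c) - (cx Φ z + c)) + ((cx Φ z - (Φ z.re : ℂ)) +
          ((Φ z.re - z.re - Φ 0 : ℝ) : ℂ) + -((z.im : ℂ) * Complex.I)) := by
        rw [hg]
        have h4 : (z.im : ℂ) * Complex.I = z - (z.re : ℂ) := by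
          apply Complex.ext <;> simp
        rw [h4]
        push_cast
        ring
      rw [h3, hG]
      have h5 := hη.near _ (hmap z hz)
      have h6 := hcim z hz
      have h7 : ‖((Φ z.re - z.re - Φ 0 : ℝ) : ℂ)‖ ≤ K := by
        rw [Complex.norm_real, Real.norm_eq_abs]
        exact hK Φ hΦ z.re
      have h8 : ‖-((z.im : ℂ) * Complex.I)‖ ≤ h := by
        rw [norm_neg, norm_mul, Complex.norm_I, mul_one, Complex.norm_real, Real.norm_eq_abs]
        exact le_of_lt hz
      have h9 : M * |z.im| ≤ s0 / 4 :=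
        (mul_le_mul_of_nonneg_left (le_of_lt hz) hM.le).trans hle2
      refine (norm_add_le _ _).trans (add_le_add h5 ?_)
      refine (norm_add_le _ _).trans (add_le_add ?_ h8)
      exact (norm_add_le _ _).trans (add_le_add (h6.trans h9) h7)
    have h3 := d4_coef hgd hgp hgb (y := h / 2) (by linarith) (by linarith) l
    have h4 : fco (fun x => (η ((Φ x + c : ℝ) : ℂ)).re - x) l =
        ∫ x in (0 : ℝ)..1, g x * Complex.exp (-(2 * π * Complex.I * l * x)) := by
      unfold fco
      have h5 : ∀ x : ℝ, (((η ((Φ x + c : ℝ) : ℂ)).re - x : ℝ) : ℂ) = g x + ((c + Φ 0 : ℝ) : ℂ) := by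
        intro x
        rw [hg, hI.real Φ hΦ]
        rw [Complex.ofReal_sub, hηre (Φ x + c)]
        push_cast
        ring
      have hcg : Continuous fun x : ℝ => g x := by
        rw [continuous_iff_continuousAt]
        intro x
        have h6 : ContinuousAt g x :=
          (hgd.differentiableAt ((d4_St_open h).mem_nhds (d4_real_mem hpos x))).continuousAt
        exact ContinuousAt.comp (f := fun x : ℝ => (x : ℂ)) (g := g) h6
          Complex.continuous_ofReal.continuousAt
      have hce : Continuous fun x : ℝ => Complex.exp (-(2 * π * Complex.I * l * x)) := by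
        fun_prop
      calc ∫ x in (0 : ℝ)..1, (((η ((Φ x + c : ℝ) : ℂ)).re - x : ℝ) : ℂ) *
            Complex.exp (-(2 * π * Complex.I * l * x))
          = ∫ x in (0 : ℝ)..1, (g x * Complex.exp (-(2 * π * Complex.I * l * x)) +
              ((c + Φ 0 : ℝ) : ℂ) * Complex.exp (-(2 * π * Complex.I * l * x))) := by
            apply intervalIntegral.integral_congr
            intro x _
            show (((η ((Φ x + c : ℝ) : ℂ)).re - x : ℝ) : ℂ) *
              Complex.exp (-(2 * π * Complex.I * l * x)) = _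
            rw [h5]
            ring
        _ = (∫ x in (0 : ℝ)..1, g x * Complex.exp (-(2 * π * Complex.I * l * x))) +
              ∫ x in (0 : ℝ)..1, ((c + Φ 0 : ℝ) : ℂ) *
                Complex.exp (-(2 * π * Complex.I * l * x)) := by
            apply intervalIntegral.integral_add
            · exact (hcg.mul hce).intervalIntegrable _ _
            · exact (continuous_const.mul hce).intervalIntegrable _ _
        _ = _ := by
            rw [intervalIntegral.integral_const_mul, d4_int_exp hl, mul_zero, add_zero]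
    rw [h4]
    refine h3.trans ?_
    apply mul_le_mul hn2 _ (Real.exp_pos _).le hn'0.le
    apply Real.exp_le_exp.2
    have h6 : 1 / (n' : ℝ) ≤ h / 2 := by
      rw [div_le_iff₀ hn'0]
      rw [div_le_iff₀ hpos] at hn3
      linarith
    have h7 : 2 * π * |(l : ℝ)| / n' ≤ 2 * π * |(l : ℝ)| * (h / 2) := by
      rw [div_eq_mul_one_div]
      exact mul_le_mul_of_nonneg_left h6 (by positivity)
    linarith
  · intro x
    rw [(hΨd x).deriv]
    have h3 := hηd (Φ x + c)
    have h4 := hΦ.2.2 x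
    have h5 : 1 / (n' : ℝ) ≤ (1 / 2) * (1 / n) := by
      rw [div_mul_div_comm, one_mul]
      exact one_div_le_one_div_of_le (by positivity) hn1
    refine h5.trans ?_
    exact mul_le_mul h3 h4 (by positivity) (by linarith)

end Pool.Agent.Helper67.DO
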